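import Pool.Agent.helper45.SGK.Spec

/-!
# Project SGK (MP_069684_lc), row AVS: one layer of symmetric gates
-/

set_option autoImplicit false

namespace Pool.Agent.SGK

open Finset Pool.Agent.helper38.Neg Pool.Agent.helper55.NT
open Pool.Agent.SGC (Sg SCirc Ext Mv hw RN Solv stA stB)

/-- the embedding of the old gates -/
def AVS_inl (G W' : Type) : G ↪ G ⊕ W' := ⟨Sum.inl, Sum.inl_injective⟩

/-- the embedding of the indices of the family as old gates -/
def AVS_ie {G W : Type} (W' : Type) (emb : W → G) (h : Function.Injective emb) : W ↪ G ⊕ W' :=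
  ⟨fun w => Sum.inl (emb w), fun _ _ e => h (Sum.inl_injective e)⟩

/-- the new circuit -/
def AVS_C {n : ℕ} {G W W' : Type} [Fintype G] (C : SCirc n G) (emb : W → G) (h : Function.Injective emb)
    (K : W' → Finset W) (φ : W' → ℕ → Bool) : SCirc n (G ⊕ W') where
  lab := Sum.elim C.lab fun _ => none
  kids := Sum.elim (fun g => (C.kids g).map (AVS_inl G W')) fun w' => (K w').map (AVS_ie W' emb h)
  fn := Sum.elim C.fn φ
  rank := Sum.elim C.rank fun _ => (∑ g, C.rank g) + 1
  acyc := by
    rintro (g | w') b hb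
    · simp only [Sum.elim_inl, mem_map] at hb
      obtain ⟨a, ha, rfl⟩ := hb
      exact C.acyc g a ha
    · simp only [Sum.elim_inr, mem_map] at hb
      obtain ⟨a, _, rfl⟩ := hb
      have h1 : C.rank (emb a) ≤ ∑ g, C.rank g :=
        single_le_sum (f := fun g => C.rank g) (fun _ _ => Nat.zero_le _) (mem_univ _)
      exact Nat.lt_succ_of_le h1
  out := Sum.inl C.out

theorem AVS_val {n : ℕ} {G W W' : Type} [Fintype G] (C : SCirc n G) (emb : W → G) (h : Function.Injective emb)
    (K : W' → Finset W) (φ : W' → ℕ → Bool) (x : Fin n → Bool) :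
    ∀ (N : ℕ) (g : G), C.rank g ≤ N → (AVS_C C emb h K φ).val x (Sum.inl g) = C.val x g := by
  intro N
  induction N with
  | zero =>
    intro g hg
    have hk : C.kids g = ∅ := by
      rw [eq_empty_iff_forall_notMem]
      intro b hb
      have := C.acyc g b hb
      omega
    cases hl : C.lab g with
    | some p =>
      rw [C.val_some x g p hl]
      exact SCirc.val_some _ x (Sum.inl g) p hl
    | none =>
      rw [C.val_none x g hl]
      rw [SCirc.val_none _ x (Sum.inl g) hl]
      have hk' : (AVS_C C emb h K φ).kids (Sum.inl g) = ∅ := by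
        show (C.kids g).map (AVS_inl G W') = ∅
        rw [hk, map_empty]
      rw [hk', hk]
      rfl
  | succ N ih =>
    intro g hg
    cases hl : C.lab g with
    | some p =>
      rw [C.val_some x g p hl]
      exact SCirc.val_some _ x (Sum.inl g) p hl
    | none =>
      rw [C.val_none x g hl]
      rw [SCirc.val_none _ x (Sum.inl g) hl]
      have hk' : (AVS_C C emb h K φ).kids (Sum.inl g) = (C.kids g).map (AVS_inl G W') := rfl
      have hf : (AVS_C C emb h K φ).fn (Sum.inl g) = C.fn g := rfl
      rw [hk', hf, filter_map, card_map]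
      congr 2
      refine filter_congr fun b hb => ?_
      have h1 := C.acyc g b hb
      have h2 := ih b (by omega)
      show (AVS_C C emb h K φ).val x (Sum.inl b) = true ↔ _
      rw [h2]

theorem AVS_val' {n : ℕ} {G W W' : Type} [Fintype G] (C : SCirc n G) (emb : W → G) (h : Function.Injective emb)
    (K : W' → Finset W) (φ : W' → ℕ → Bool) (x : Fin n → Bool) (w' : W') :
    (AVS_C C emb h K φ).val x (Sum.inr w') = φ w' ((K w').filter fun w => C.val x (emb w) = true).card := by
  rw [SCirc.val_none _ x (Sum.inr w') rfl]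
  have hk' : (AVS_C C emb h K φ).kids (Sum.inr w') = (K w').map (AVS_ie W' emb h) := rfl
  have hf : (AVS_C C emb h K φ).fn (Sum.inr w') = φ w' := rfl
  rw [hk', hf, filter_map, card_map]
  congr 2
  refine filter_congr fun b _ => ?_
  show (AVS_C C emb h K φ).val x (Sum.inl (emb b)) = true ↔ _
  rw [AVS_val C emb h K φ x _ (emb b) le_rfl]

theorem AVS : AVS_stmt := by
  intro k _ n V W W' _ act act' F m K φ F' hAv hK hφ hF'
  obtain ⟨G, fG, C, emb, hcard, hinj, hval, hsym⟩ := hAv
  refine ⟨G ⊕ W', inferInstance, AVS_C C emb hinj K φ, Sum.map emb id, ?_, ?_, ?_, ?_⟩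
  · rw [Fintype.card_sum]
    exact Nat.add_le_add_right hcard _
  · exact hinj.sumMap Function.injective_id
  · rintro (w | w') x
    · show (AVS_C C emb hinj K φ).val x (Sum.inl (emb w)) = F w x
      rw [AVS_val C emb hinj K φ x _ (emb w) le_rfl, hval]
    · show (AVS_C C emb hinj K φ).val x (Sum.inr w') = F' w' x
      rw [AVS_val', hF']
      simp only [hval]
  · intro γ hγ
    obtain ⟨π, h1, h2, h3, h4⟩ := hsym γ hγ
    obtain ⟨e, he⟩ : ∃ e : Equiv.Perm W', ∀ w', e w' = act'.f γ w' :=
      ⟨⟨act'.f γ, act'.f γ, act'.inv γ, act'.inv γ⟩, fun _ => rfl⟩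
    refine ⟨Equiv.sumCongr π e, ?_, ?_, ?_, ?_⟩
    · rintro (g | w')
      · exact h1 g
      · rfl
    · rintro (g | w')
      · show (C.kids (π g)).map (AVS_inl G W') = ((C.kids g).map (AVS_inl G W')).map _
        rw [h2, map_map, map_map]
        rfl
      · show (K (e w')).map (AVS_ie W' emb hinj) = ((K w').map (AVS_ie W' emb hinj)).map _
        rw [he]
        ext b
        simp only [mem_map]
        constructor
        · rintro ⟨w, hw, rfl⟩
          refine ⟨Sum.inl (emb (act.f γ w)), ⟨act.f γ w, ?_, rfl⟩, ?_⟩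
          · rw [hK γ hγ, act.inv]
            exact hw
          · show Sum.inl (π (emb (act.f γ w))) = Sum.inl (emb w)
            rw [h4, act.inv]
        · rintro ⟨_, ⟨w, hw, rfl⟩, rfl⟩
          refine ⟨act.f γ w, (hK γ hγ w w').1 hw, ?_⟩
          show Sum.inl (emb (act.f γ w)) = Sum.inl (π (emb w))
          rw [h4]
    · rintro (g | w')
      · exact h3 g
      · show φ (e w') = φ w'
        rw [he]
        exact hφ γ hγ w'
    · rintro (w | w')
      · show Sum.inl (π (emb w)) = Sum.inl (emb (act.f γ w))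
        rw [h4]
      · show Sum.inr (e w') = Sum.inr (act'.f γ w')
        rw [he]

end Pool.Agent.SGK
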